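import Pool.Agent.L0h43.TB.Ind3

/-!
# An upper bound for the prime tuples with almost all short shifts

For all but a proportion `ε` of the `k`-element sets `D ⊂ [2, (log x) ^ (k + 1)]` the number of
`m ≤ x` for which `m` and all `m + d`, `d ∈ D`, are prime is at most `4 ^ k + ε` times the
Hardy-Littlewood prediction; the same for the `k`-element subsets of every window
`(u, u + H] ⊂ [1, (log x) ^ A]` of length `H ≥ K log x`, and for weighted sums with arbitrary weights
in `[0, 1]`.

Method. Let `T` be any set of shifts in `[0, (log x) ^ A]`, in a class modulo a fixed primorial. The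
number of primes in `n + (u, u + H]`, counted with any weights `g ≤ 1`, has a Selberg majorant `y n`
(a preliminary sieve of small dimension at each `n + t`, `n + h`, and Selberg weights of level
`x ^ (1/2 - δ)` at `n + h`) whose variance over the prime `T`-tuples is small when `H ≥ K log x`: the
pairs `h, h'` are asymptotically independent on average over `h, h'`, uniformly in `T`. This gives
each sum over one further shift in terms of the sum without it, with the factor `4 + ε`; the singular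
series of `T ∪ {h}` in a class modulo the primorial is almost a constant times that of `T`, so the
weights can be passed on, and `k` steps give the result.
-/

set_option autoImplicit false

open Finset Filter

namespace Pool.Agent.Results.MP_485179_nt.AlmostAllShifts

open Classical in
/-- the number of integers `1 ≤ m ≤ x` for which all `m + t`, `t ∈ T`, are prime -/
noncomputable def count (x : ℝ) (T : Finset ℕ) : ℕ :=
  ((Icc 1 ⌊x⌋₊).filter (fun m => ∀ t ∈ T, (m + t).Prime)).card

/-- the number of residue classes modulo `p` that meet `T` -/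
def nu (T : Finset ℕ) (p : ℕ) : ℕ := (T.image (· % p)).card

/-- the factor at `p` of the singular series of `T` -/
noncomputable def loc (T : Finset ℕ) (p : ℕ) : ℝ :=
  (1 - (nu T p : ℝ) / p) / (1 - 1 / (p : ℝ)) ^ T.card

/-- the singular series of `T` -/
noncomputable def 𝔖 (T : Finset ℕ) : ℝ := ∏' p : Nat.Primes, loc T p

/-- the prediction `𝔖 ({0} ∪ D) x / (log x) ^ (k + 1)` for a set `D` of `k` shifts -/
noncomputable def pred (k : ℕ) (x : ℝ) (D : Finset ℕ) : ℝ :=
  𝔖 (insert 0 D) * (x / Real.log x ^ (k + 1))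

open Classical in
/-- the `k`-element subsets `D` of `I` with `𝔖 ({0} ∪ D) ≠ 0` for which more than `c` times the
predicted number of `m ≤ x` have `m` and all `m + d`, `d ∈ D`, prime -/
noncomputable def above (k : ℕ) (x c : ℝ) (I : Finset ℕ) : Finset (Finset ℕ) :=
  (I.powersetCard k).filter (fun D => 𝔖 (insert 0 D) ≠ 0 ∧ c * pred k x D < (count x (insert 0 D) : ℝ))

open Pool.Agent.L0h43.TB

theorem CT_eq (T : Finset ℕ) : Pool.Agent.H387R2.Uni.CT T = 𝔖 T := rfl

theorem cnt_eq (x : ℝ) (T : Finset ℕ) : cnt x T = count x T := rfl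

/-- The product `𝔖 T` converges for every finite set `T` of natural numbers. Let `k ∈ ℕ`, `ε > 0`.

(1) There is `K` such that for every `A ≥ 0`, all large real `x` and all natural numbers `u`, `H` with
`K log x ≤ H` and `u + H ≤ (log x) ^ A`:
for all weights `0 ≤ g D ≤ 1` on the `k`-element subsets `D` of `(u, u + H]`, the sum of
`g D * count x ({0} ∪ D)` is at most `4 ^ k` times the sum of `g D` times the predictions, plus
`ε H ^ k x / (log x) ^ (k + 1)`; and all but a proportion `ε` of the `D` have `𝔖 ({0} ∪ D) = 0` or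
`count x ({0} ∪ D) ≤ (4 ^ k + ε) 𝔖 ({0} ∪ D) x / (log x) ^ (k + 1)`.

(2) If `k ≥ 1`, then for all large real `x` all but a proportion `ε` of the `k`-element sets
`D ⊂ [2, (log x) ^ (k + 1)]` have `𝔖 ({0} ∪ D) = 0` or
`count x ({0} ∪ D) ≤ (4 ^ k + ε) 𝔖 ({0} ∪ D) x / (log x) ^ (k + 1)`. -/
theorem result :
    (∀ T : Finset ℕ, HasProd (fun p : Nat.Primes => loc T p) (𝔖 T)) ∧
    ∀ (k : ℕ) (ε : ℝ), 0 < ε →
      (∃ K : ℝ, ∀ A : ℝ, 0 ≤ A → ∃ x₀ : ℝ, ∀ x : ℝ, x₀ ≤ x → ∀ u H : ℕ, K * Real.log x ≤ H →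
        ((u + H : ℕ) : ℝ) ≤ Real.log x ^ A →
        (∀ g : Finset ℕ → ℝ, (∀ D, 0 ≤ g D ∧ g D ≤ 1) →
          ∑ D ∈ (Ioc u (u + H)).powersetCard k, g D * (count x (insert 0 D) : ℝ) ≤
            4 ^ k * ∑ D ∈ (Ioc u (u + H)).powersetCard k, g D * pred k x D +
              ε * (H : ℝ) ^ k * (x / Real.log x ^ (k + 1))) ∧
        ((above k x (4 ^ k + ε) (Ioc u (u + H))).card : ℝ) ≤
          ε * (((Ioc u (u + H)).powersetCard k).card : ℝ)) ∧
      (1 ≤ k → ∃ x₀ : ℝ, ∀ x : ℝ, x₀ ≤ x →
        ((above k x (4 ^ k + ε) (Icc 2 ⌊Real.log x ^ (k + 1)⌋₊)).card : ℝ) ≤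
          ε * (((Icc 2 ⌊Real.log x ^ (k + 1)⌋₊).powersetCard k).card : ℝ)) := by
  classical
  have key : ∀ (k : ℕ) (x c : ℝ) (I : Finset ℕ), above k x c I =
      (I.powersetCard k).filter (fun D => Pool.Agent.H387R2.Uni.CT (insert 0 D) ≠ 0 ∧
        c * Pool.Agent.H387R2.Uni.CT (insert 0 D) * (x / Real.log x ^ (k + 1)) < (cnt x (insert 0 D) : ℝ)) := by
    intro k x c I
    unfold above pred
    apply filter_congr
    intro D _
    rw [← CT_eq, cnt_eq, mul_assoc]
  refine ⟨fun T => Pool.Agent.H387R2.Uni.CT_hasProd T, fun k ε hε => ⟨?_, ?_⟩⟩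
  · obtain ⟨K1, hK1, h1⟩ := W_all k ε hε
    obtain ⟨K2, hK2, h2⟩ := AE_all k ε hε
    refine ⟨max K1 K2, fun A hA => ?_⟩
    obtain ⟨x₀, h⟩ := eventually_atTop.1 (((h1 A hA).and (h2 A hA)).and (eventually_ge_atTop 1))
    refine ⟨x₀, fun x hx u H hKH hHA => ?_⟩
    obtain ⟨⟨g1, g2⟩, g3⟩ := h x hx
    have hl : 0 ≤ Real.log x := Real.log_nonneg g3
    have hKH1 : K1 * Real.log x ≤ H := (mul_le_mul_of_nonneg_right (le_max_left _ _) hl).trans hKH
    have hKH2 : K2 * Real.log x ≤ H := (mul_le_mul_of_nonneg_right (le_max_right _ _) hl).trans hKH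
    refine ⟨fun g hg => ?_, ?_⟩
    · refine (g1 u H hKH1 hHA g (fun D => (hg D).1) (fun D => (hg D).2)).trans (le_of_eq ?_)
      unfold pred
      rw [add_mul, mul_assoc (4 ^ k), sum_mul]
      congr 2
      apply sum_congr rfl
      intro D _
      rw [CT_eq]; ring
    · rw [key, card_powersetCard, Nat.card_Ioc, Nat.add_sub_cancel_left]
      exact g2 u H hKH2 hHA
  · intro hk
    obtain ⟨K, hK, h⟩ := AE_all k ε hε
    obtain ⟨x₀, h1⟩ := eventually_atTop.1 ((h (k + 1) (by positivity)).and
      (Real.tendsto_log_atTop.eventually_ge_atTop (K + 3)))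
    refine ⟨x₀, fun x hx => ?_⟩
    obtain ⟨g1, g2⟩ := h1 x hx
    set l := Real.log x with hl
    have hl3 : 3 ≤ l := by linarith
    obtain ⟨M, hM⟩ : ∃ M, M = ⌊l ^ (k + 1)⌋₊ := ⟨_, rfl⟩
    have hM1 : (M : ℝ) ≤ l ^ (k + 1) := by rw [hM]; exact Nat.floor_le (by positivity)
    have hM2 : l ^ (k + 1) < M + 1 := by rw [hM]; exact Nat.lt_floor_add_one _
    have hl2 : l ^ 2 ≤ l ^ (k + 1) := pow_le_pow_right₀ (by linarith) (by omega)
    have hM3 : (K + 3) * l ≤ M + 1 := by
      have : (K + 3) * l ≤ l * l := mul_le_mul_of_nonneg_right g2 (by linarith)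
      nlinarith
    have hM4 : 2 ≤ M := by
      have : (1 : ℝ) < M := by nlinarith
      exact_mod_cast this
    rw [← hM]
    have e1 : Icc 2 M = Ioc 1 (1 + (M - 1)) := by
      ext a
      simp only [mem_Icc, mem_Ioc]
      omega
    rw [e1, key, card_powersetCard, Nat.card_Ioc, Nat.add_sub_cancel_left]
    apply g1 1 (M - 1)
    · have : ((M - 1 : ℕ) : ℝ) = M - 1 := by
        rw [Nat.cast_sub (by omega), Nat.cast_one]
      rw [this]
      nlinarith
    · have e2 : 1 + (M - 1) = M := by omega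
      rw [e2]
      have e3 : l ^ ((k : ℝ) + 1) = l ^ (k + 1) := by
        rw [← Real.rpow_natCast l (k + 1)]
        push_cast
        rfl
      rw [e3]
      exact hM1

end Pool.Agent.Results.MP_485179_nt.AlmostAllShifts
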