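import Pool.Agent.L0h43.TD.LFin

/-!
# A lower bound with almost primes for almost all short shifts

There is an absolute constant `c > 0` such that for every `k` and `ε`, for all but a proportion `ε` of
the `k`-element sets `D ⊂ [2, (log x) ^ (k + 1)]` (and of the `k`-element subsets of every window
`(u, u + H] ⊂ [1, (log x) ^ A]` with `H ≥ K log x`) there are at least `c ^ k` times the predicted
number of primes `m ≤ x` for which every `m + d`, `d ∈ D`, has at most three prime factors, all of
them at least `x ^ (1 / 9)`; the same for weighted sums with arbitrary weights in `[0, 1]`.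

Method. Let `T` be any set of shifts in `[0, (log x) ^ A]`. The almost primes in `n + (u, u + H]`,
counted with any weights `g ≤ 1`, have a minorant (a preliminary sieve of small dimension at each
`n + t`, `n + h`, and the universal weights of the weighted linear sieve, of level a little below
`x ^ (1/2)`, at `n + h`) whose variance over the `T`-tuples without small prime factors, in a class
modulo a primorial, is small when `H ≥ K log x`: the pairs `h, h'` are asymptotically independent on
average, uniformly in `T`. So the sum over one further shift is at least an absolute constant times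
its expected size, for every set of such tuples; the singular series of `T ∪ {h}` in a class modulo
the primorial is on average a constant times that of `T`, the weights can be passed on, and `k` steps
give the result.
-/

set_option autoImplicit false

open Finset Filter

namespace Pool.Agent.Results.MP_485179_nt.AlmostPrimeShifts

/-- `m` has at most three prime factors (counted with multiplicity), all of them at least
`x ^ (1 / 9)` -/
def almostPrime (x : ℝ) (m : ℕ) : Prop :=
  m.primeFactorsList.length ≤ 3 ∧ ∀ p : ℕ, p.Prime → p ∣ m → x ^ (1 / 9 : ℝ) ≤ p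

open Classical in
/-- the number of primes `m ≤ x` for which all `m + d`, `d ∈ D`, are almost primes -/
noncomputable def count₃ (x : ℝ) (D : Finset ℕ) : ℕ :=
  ((Icc 1 ⌊x⌋₊).filter (fun m => m.Prime ∧ ∀ d ∈ D, almostPrime x (m + d))).card

/-- the number of residue classes modulo `p` that meet `T` -/
def nu (T : Finset ℕ) (p : ℕ) : ℕ := (T.image (· % p)).card

/-- the factor at `p` of the singular series of `T` -/
noncomputable def loc (T : Finset ℕ) (p : ℕ) : ℝ :=
  (1 - (nu T p : ℝ) / p) / (1 - 1 / (p : ℝ)) ^ T.card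

/-- the singular series of `T` -/
noncomputable def 𝔖 (T : Finset ℕ) : ℝ := ∏' p : Nat.Primes, loc T p

/-- the prediction `𝔖 ({0} ∪ D) x / (log x) ^ (k + 1)` for a set `D` of `k` shifts -/
noncomputable def pred (k : ℕ) (x : ℝ) (D : Finset ℕ) : ℝ :=
  𝔖 (insert 0 D) * (x / Real.log x ^ (k + 1))

open Classical in
/-- the `k`-element subsets `D` of `I` with `𝔖 ({0} ∪ D) ≠ 0` and `count₃ x D < c * pred k x D` -/
noncomputable def below (k : ℕ) (x c : ℝ) (I : Finset ℕ) : Finset (Finset ℕ) :=
  (I.powersetCard k).filter (fun D => 𝔖 (insert 0 D) ≠ 0 ∧ (count₃ x D : ℝ) < c * pred k x D)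

open Pool.Agent.L0h43.TD

theorem CT_eq (T : Finset ℕ) : Pool.Agent.H387R2.Uni.CT T = 𝔖 T := rfl

theorem cnt_eq (x : ℝ) (D : Finset ℕ) : cnt3 x D = count₃ x D := rfl

/-- The product `𝔖 T` converges for every finite set `T` of natural numbers, and there is an absolute
constant `c > 0` with the following properties, for every `k ∈ ℕ` and `ε > 0`.

(1) There is `K` such that for every `A ≥ 0`, all large real `x` and all natural numbers `u`, `H` with
`K log x ≤ H` and `u + H ≤ (log x) ^ A`:
for all weights `0 ≤ g D ≤ 1` on the `k`-element subsets `D` of `(u, u + H]`, the sum of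
`g D * count₃ x D` is at least `c ^ k` times the sum of `g D` times the predictions, minus
`ε H ^ k x / (log x) ^ (k + 1)`; and all but a proportion `ε` of the `D` have `𝔖 ({0} ∪ D) = 0` or
`count₃ x D ≥ (1 - ε) c ^ k 𝔖 ({0} ∪ D) x / (log x) ^ (k + 1)`.

(2) If `k ≥ 1`, then for all large real `x` all but a proportion `ε` of the `k`-element sets
`D ⊂ [2, (log x) ^ (k + 1)]` have `𝔖 ({0} ∪ D) = 0` or
`count₃ x D ≥ (1 - ε) c ^ k 𝔖 ({0} ∪ D) x / (log x) ^ (k + 1)`. -/
theorem result :
    (∀ T : Finset ℕ, HasProd (fun p : Nat.Primes => loc T p) (𝔖 T)) ∧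
    ∃ c : ℝ, 0 < c ∧ ∀ (k : ℕ) (ε : ℝ), 0 < ε →
      (∃ K : ℝ, ∀ A : ℝ, 0 ≤ A → ∃ x₀ : ℝ, ∀ x : ℝ, x₀ ≤ x → ∀ u H : ℕ, K * Real.log x ≤ H →
        ((u + H : ℕ) : ℝ) ≤ Real.log x ^ A →
        (∀ g : Finset ℕ → ℝ, (∀ D, 0 ≤ g D ∧ g D ≤ 1) →
          c ^ k * ∑ D ∈ (Ioc u (u + H)).powersetCard k, g D * pred k x D -
              ε * (H : ℝ) ^ k * (x / Real.log x ^ (k + 1)) ≤
            ∑ D ∈ (Ioc u (u + H)).powersetCard k, g D * (count₃ x D : ℝ)) ∧
        ((below k x ((1 - ε) * c ^ k) (Ioc u (u + H))).card : ℝ) ≤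
          ε * (((Ioc u (u + H)).powersetCard k).card : ℝ)) ∧
      (1 ≤ k → ∃ x₀ : ℝ, ∀ x : ℝ, x₀ ≤ x →
        ((below k x ((1 - ε) * c ^ k) (Icc 2 ⌊Real.log x ^ (k + 1)⌋₊)).card : ℝ) ≤
          ε * (((Icc 2 ⌊Real.log x ^ (k + 1)⌋₊).powersetCard k).card : ℝ)) := by
  classical
  have key : ∀ (k : ℕ) (x c : ℝ) (I : Finset ℕ), below k x c I =
      (I.powersetCard k).filter (fun D => Pool.Agent.H387R2.Uni.CT (insert 0 D) ≠ 0 ∧
        (cnt3 x D : ℝ) < c * Pool.Agent.H387R2.Uni.CT (insert 0 D) * (x / Real.log x ^ (k + 1))) := by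
    intro k x c I
    unfold below pred
    apply filter_congr
    intro D _
    rw [← CT_eq, cnt_eq, mul_assoc]
  obtain ⟨c, hc, hc1, HC⟩ := AE_low
  refine ⟨fun T => Pool.Agent.H387R2.Uni.CT_hasProd T, c, hc, fun k ε hε => ?_⟩
  obtain ⟨K, hK, h⟩ := HC k ε hε
  refine ⟨⟨K, fun A hA => ?_⟩, ?_⟩
  · obtain ⟨x₀, h1⟩ := eventually_atTop.1 (h A hA)
    refine ⟨x₀, fun x hx u H hKH hHA => ?_⟩
    obtain ⟨g1, g2⟩ := h1 x hx u H hKH hHA
    refine ⟨fun g hg => ?_, ?_⟩
    · refine le_trans (le_of_eq ?_) (g1 g (fun D => (hg D).1) (fun D => (hg D).2))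
      unfold pred
      rw [sub_mul, mul_assoc (c ^ k), sum_mul]
      congr 2
      apply sum_congr rfl
      intro D _
      rw [CT_eq]; ring
    · rw [key, card_powersetCard, Nat.card_Ioc, Nat.add_sub_cancel_left]
      exact g2
  · intro hk
    obtain ⟨x₀, h1⟩ := eventually_atTop.1 ((h (k + 1) (by positivity)).and
      (Real.tendsto_log_atTop.eventually_ge_atTop (K + 3)))
    refine ⟨x₀, fun x hx => ?_⟩
    obtain ⟨g1, g2⟩ := h1 x hx
    set l := Real.log x with hl
    have hl3 : 3 ≤ l := by linarith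
    obtain ⟨M, hM⟩ : ∃ M, M = ⌊l ^ (k + 1)⌋₊ := ⟨_, rfl⟩
    have hM1 : (M : ℝ) ≤ l ^ (k + 1) := by rw [hM]; exact Nat.floor_le (by positivity)
    have hM2 : l ^ (k + 1) < M + 1 := by rw [hM]; exact Nat.lt_floor_add_one _
    have hl2 : l ^ 2 ≤ l ^ (k + 1) := pow_le_pow_right₀ (by linarith) (by omega)
    have hM3 : (K + 3) * l ≤ M + 1 := by
      have : (K + 3) * l ≤ l * l := mul_le_mul_of_nonneg_right g2 (by linarith)
      nlinarith
    have hM4 : 2 ≤ M := by
      have : (1 : ℝ) < M := by nlinarith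
      exact_mod_cast this
    rw [← hM]
    have e1 : Icc 2 M = Ioc 1 (1 + (M - 1)) := by
      ext a
      simp only [mem_Icc, mem_Ioc]
      omega
    rw [e1, key, card_powersetCard, Nat.card_Ioc, Nat.add_sub_cancel_left]
    refine (g1 1 (M - 1) ?_ ?_).2
    · have : ((M - 1 : ℕ) : ℝ) = M - 1 := by
        rw [Nat.cast_sub (by omega), Nat.cast_one]
      rw [this]
      nlinarith
    · have e2 : 1 + (M - 1) = M := by omega
      rw [e2]
      have e3 : l ^ ((k : ℝ) + 1) = l ^ (k + 1) := by
        rw [← Real.rpow_natCast l (k + 1)]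
        push_cast
        rfl
      rw [e3]
      exact hM1

end Pool.Agent.Results.MP_485179_nt.AlmostPrimeShifts
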