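import Pool.Agent.L0h43.TA.Rx2

/-!
# The Hardy-Littlewood prediction on average over the short shifts, from below and from above

On average over the `k`-element sets `D ⊂ [2, H]` the number of `m ≤ x` for which `m` and all `m + d`,
`d ∈ D`, are prime is, up to `ε`, at least `(4 / (1 + 3 (k + 1)^(1/k)))^k ≥ (k + 1)^(-3/4) / 2` and at
most `4 ^ k` times the Hardy-Littlewood prediction, for `H = (log x) ^ (k + 1)` and at every scale
`K log x ≤ H ≤ (log x) ^ A`; here `4` can be replaced by `18 / 5` (in both constants) for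
`H ≥ (log x) ^ β`, `β > 20`.

Method. (1) In almost all windows of length `K log x` there are at most `(4 + δ) K` primes: second moment
of a Selberg majorant of level `x ^ (1 / 2)` after a preliminary sieve. (2) The same for the windows at a
given distance from almost all primes. (3) Upper bounds: moments. (4) Lower bounds: the average over
windows of length `T H` (prime number theorem and convexity), written as an integral of the moments of
the number of primes in `(p, p + u H]`, `u ≤ T`; by (2) these grow slowly in `u`.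
-/

set_option autoImplicit false

open Finset Filter

namespace Pool.Agent.Results.MP_485179_nt.AverageOverShifts

/-- the number of integers `1 ≤ m ≤ x` for which all `m + t`, `t ∈ T`, are prime -/
noncomputable def count (x : ℝ) (T : Finset ℕ) : ℕ :=
  ((Icc 1 ⌊x⌋₊).filter (fun m => ∀ t ∈ T, (m + t).Prime)).card

/-- the number of residue classes modulo `p` that meet `T` -/
def nu (T : Finset ℕ) (p : ℕ) : ℕ := (T.image (· % p)).card

/-- the factor at `p` of the singular series of `T` -/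
noncomputable def loc (T : Finset ℕ) (p : ℕ) : ℝ :=
  (1 - (nu T p : ℝ) / p) / (1 - 1 / (p : ℝ)) ^ T.card

/-- the singular series of `T` -/
noncomputable def 𝔖 (T : Finset ℕ) : ℝ := ∏' p : Nat.Primes, loc T p

/-- the sum of the counts of `{0} ∪ D` over the `k`-element sets `D ⊆ [2, H]` -/
noncomputable def total (k : ℕ) (x : ℝ) (H : ℕ) : ℝ :=
  ∑ D ∈ (Icc 2 H).powersetCard k, (count x (insert 0 D) : ℝ)

/-- the sum of the predictions `𝔖 ({0} ∪ D) x / (log x) ^ (k + 1)` over the same sets -/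
noncomputable def model (k : ℕ) (x : ℝ) (H : ℕ) : ℝ :=
  ∑ D ∈ (Icc 2 H).powersetCard k, 𝔖 (insert 0 D) * (x / Real.log x ^ (k + 1))

/-- the sum of the counts of the `(k + 1)`-element sets `T ⊆ [0, H)` -/
noncomputable def totalW (k : ℕ) (x : ℝ) (H : ℕ) : ℝ :=
  ∑ T ∈ (range H).powersetCard (k + 1), (count x T : ℝ)

/-- the sum of the predictions `𝔖 T x / (log x) ^ (k + 1)` over the same sets -/
noncomputable def modelW (k : ℕ) (x : ℝ) (H : ℕ) : ℝ :=
  ∑ T ∈ (range H).powersetCard (k + 1), 𝔖 T * (x / Real.log x ^ (k + 1))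

/-- the lower constant `(c / (1 + (c - 1) (k + 1) ^ (1 / k))) ^ k` -/
noncomputable def low (c : ℝ) (k : ℕ) : ℝ :=
  (c / (1 + (c - 1) * ((k : ℝ) + 1) ^ ((k : ℝ)⁻¹))) ^ k

open Pool.Agent.L0h43.TA

theorem low_eq (c : ℝ) (k : ℕ) : low c k = lam c k := rfl

theorem model_eq (k : ℕ) (x : ℝ) (H : ℕ) : model k x H = SA k H * (x / Real.log x ^ (k + 1)) := by
  unfold model SA
  rw [sum_mul]
  rfl

theorem modelW_eq (k : ℕ) (x : ℝ) (H : ℕ) : modelW k x H = SW k H * (x / Real.log x ^ (k + 1)) := by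
  unfold modelW SW
  rw [sum_mul]
  rfl

theorem count_eq (x : ℝ) (T : Finset ℕ) : count x T = cn ⌊x⌋₊ T := rfl

theorem total_eq (k : ℕ) (x : ℝ) (H : ℕ) : total k x H = QA k H ⌊x⌋₊ := by
  unfold total QA
  exact sum_congr rfl fun D _ => by rw [count_eq]

theorem totalW_eq (k : ℕ) (x : ℝ) (H : ℕ) : totalW k x H = QW k H ⌊x⌋₊ := by
  unfold totalW QW
  exact sum_congr rfl fun D _ => by rw [count_eq]

/-- The product `𝔖 T` converges for every finite set `T`; `low 4 k ≥ (k + 1) ^ (-3/4) / 2` for `k ≥ 1`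
and `low 4 1 = 4 / 7`. Let `k ≥ 1` and `ε > 0`.

(1) For all large real `x`, with `H = ⌊(log x) ^ (k + 1)⌋`, the sum of the counts of `{0} ∪ D` over the
`k`-element sets `D ⊆ [2, H]` is at least `low 4 k - ε` and at most `4 ^ k + ε` times the sum of the
predictions over these sets; for `k ≥ 20` it is at least `low (18 / 5) k - ε` and at most
`(18 / 5) ^ k + ε` times that sum.

(2) There is `K > 0` such that for every `A` and all large `x` the same bounds with the constants
`low 4 k - ε` and `4 ^ k + ε` hold for every integer `K log x ≤ H ≤ (log x) ^ A`; and for the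
`(k + 1)`-element sets `T ⊆ [0, H)` the bounds hold with the constants `1 - ε` and `4 ^ k + ε`.

(3) For all `β > 20` and `A` and all large `x` the bounds in (2) hold, with `18 / 5` in place of `4`,
for every integer `(log x) ^ β ≤ H ≤ (log x) ^ A`. -/
theorem result :
    (∀ T : Finset ℕ, HasProd (fun p : Nat.Primes => loc T p) (𝔖 T)) ∧
    (∀ k : ℕ, 1 ≤ k → 1 / 2 * ((k : ℝ) + 1) ^ (-(3 / 4) : ℝ) ≤ low 4 k) ∧ low 4 1 = 4 / 7 ∧
    ∀ k : ℕ, 1 ≤ k → ∀ ε : ℝ, 0 < ε →
      (∃ x₀ : ℝ, ∀ x : ℝ, x₀ ≤ x →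
        (low 4 k - ε) * model k x ⌊Real.log x ^ (k + 1)⌋₊ ≤ total k x ⌊Real.log x ^ (k + 1)⌋₊ ∧
        total k x ⌊Real.log x ^ (k + 1)⌋₊ ≤ (4 ^ k + ε) * model k x ⌊Real.log x ^ (k + 1)⌋₊ ∧
        (20 ≤ k →
          (low (18 / 5) k - ε) * model k x ⌊Real.log x ^ (k + 1)⌋₊ ≤ total k x ⌊Real.log x ^ (k + 1)⌋₊ ∧
          total k x ⌊Real.log x ^ (k + 1)⌋₊ ≤
            ((18 / 5) ^ k + ε) * model k x ⌊Real.log x ^ (k + 1)⌋₊)) ∧
      (∃ K : ℝ, 0 < K ∧ ∀ A : ℝ, ∃ x₀ : ℝ, ∀ x : ℝ, x₀ ≤ x → ∀ H : ℕ,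
        K * Real.log x ≤ H → (H : ℝ) ≤ Real.log x ^ A →
          (low 4 k - ε) * model k x H ≤ total k x H ∧
          total k x H ≤ (4 ^ k + ε) * model k x H ∧
          (1 - ε) * modelW k x H ≤ totalW k x H ∧
          totalW k x H ≤ (4 ^ k + ε) * modelW k x H) ∧
      ∀ β A : ℝ, 20 < β → ∃ x₀ : ℝ, ∀ x : ℝ, x₀ ≤ x → ∀ H : ℕ,
        Real.log x ^ β ≤ H → (H : ℝ) ≤ Real.log x ^ A →
          (low (18 / 5) k - ε) * model k x H ≤ total k x H ∧
          total k x H ≤ ((18 / 5) ^ k + ε) * model k x H ∧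
          (1 - ε) * modelW k x H ≤ totalW k x H ∧
          totalW k x H ≤ ((18 / 5) ^ k + ε) * modelW k x H := by
  refine ⟨fun T => Pool.Agent.H387R2.Uni.CT_hasProd T, fun k hk => lam_four_ge k hk, lam_four_one,
    fun k hk ε hε => ⟨?_, ?_, ?_⟩⟩
  · obtain ⟨x₀, h⟩ := eventually_atTop.1 (prob_real2 k hk ε hε)
    refine ⟨x₀, fun x hx => ?_⟩
    rw [model_eq, total_eq, low_eq, low_eq]
    exact h x hx
  · obtain ⟨K, hK, h⟩ := all_real k hk ε hε
    obtain ⟨K₂, hK₂, h₂⟩ := all_real2 k hk ε hε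
    refine ⟨K + K₂, by linarith, fun A => ?_⟩
    obtain ⟨x₀, h1⟩ := eventually_atTop.1 (((h A).and (h₂ A)).and (eventually_ge_atTop 1))
    refine ⟨x₀, fun x hx H hH1 hH2 => ?_⟩
    obtain ⟨⟨h3, h4⟩, h5⟩ := h1 x hx
    have hl : 0 ≤ Real.log x := Real.log_nonneg h5
    have b1 : K * Real.log x ≤ H := by
      have : 0 ≤ K₂ * Real.log x := by positivity
      linarith
    have b2 : K₂ * Real.log x ≤ H := by
      have : 0 ≤ K * Real.log x := by positivity
      linarith
    obtain ⟨g1, g2, g3, g4⟩ := h3 H b1 hH2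
    rw [model_eq, total_eq, modelW_eq, totalW_eq, low_eq]
    exact ⟨h4 H b2 hH2, g4, g1, g2⟩
  · intro β A hβ
    obtain ⟨K, hK, h⟩ := all_real k hk ε hε
    have hev : ∀ᶠ x : ℝ in atTop, K ≤ Real.log x ^ (β - 1) :=
      ((tendsto_rpow_atTop (by linarith)).comp Real.tendsto_log_atTop).eventually_ge_atTop _
    obtain ⟨x₀, h1⟩ := eventually_atTop.1 ((((big_real k hk ε hε β hβ A).and
      (big_real2 k hk ε hε β hβ A)).and (h A)).and (hev.and (eventually_gt_atTop 1)))
    refine ⟨x₀, fun x hx H hH1 hH2 => ?_⟩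
    obtain ⟨⟨⟨h3, h4⟩, h5⟩, h6, h7⟩ := h1 x hx
    obtain ⟨g1, g2⟩ := h3 H hH1 hH2
    have hl : 0 < Real.log x := Real.log_pos h7
    have b1 : K * Real.log x ≤ H := by
      refine le_trans ?_ hH1
      calc K * Real.log x ≤ Real.log x ^ (β - 1) * Real.log x := mul_le_mul_of_nonneg_right h6 hl.le
        _ = Real.log x ^ β := by
            rw [← Real.rpow_add_one hl.ne']
            congr 1
            ring
    obtain ⟨g3, _⟩ := h5 H b1 hH2
    rw [model_eq, total_eq, modelW_eq, totalW_eq, low_eq]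
    exact ⟨h4 H hH1 hH2, g2, g3, g1⟩

end Pool.Agent.Results.MP_485179_nt.AverageOverShifts
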