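import Pool.Agent.L0h43.TC.Fin

/-!
# Explicit proportions of sets of shifts with prime tuples of the predicted order

Let `k ≥ 1`, `0 ≤ c < 1`. Sets of `k` or `k + 1` shifts are counted with the weight `𝔖`. A set is regular if its
count is between `c` and `4 ^ k + ε` times the Hardy-Littlewood prediction.

* The proportion of the regular `D ⊂ [2, (log x) ^ (k + 1)]` (counts of `{0} ∪ D`) is at least
  `(low k - c) / (4 ^ k - c) - ε`, `low k = (4 / (1 + 3 (k + 1) ^ (1 / k))) ^ k`; for `k = 1` this is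
  `(4 / 7 - c) / (4 - c) - ε`. The same for `D ⊂ [2, H]`, `K log x ≤ H ≤ (log x) ^ A`.
* In EVERY set `S` of shifts of positive density in an interval of length `H`, `K log x ≤ H ≤ (log x) ^ A`, the
  counts of the `(k + 1)`-element `T ⊂ S` are on average between `1 - ε` and `4 ^ k + ε` times the predictions, and
  the proportion of the regular `T` is at least `(1 - c) / (4 ^ k - c) - ε`.
* In every set of at least `δ x / log x` primes `≤ x` the proportion of the regular `T ⊂ [0, H)` is at least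
  `(δ ^ (k + 1) - c) / (4 ^ k - c) - ε`.

Method. Upper bounds `4 ^ k` for arbitrary weighted sums over the sets of shifts (second moment of a Selberg majorant
in windows of length `K log x` at the places `{0} ∪ D`, induction on `k`; own file AlmostAllShifts), against lower
bounds for the total sums (convexity; for dense `S` start file SharperUniversalBound; for anchored sets own file
AverageOverShifts).
-/

set_option autoImplicit false

open Finset Filter

namespace Pool.Agent.Results.MP_485179_nt.ExplicitProportions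

/-- the number of integers `1 ≤ m ≤ x` for which all `m + t`, `t ∈ T`, are prime -/
noncomputable def count (x : ℝ) (T : Finset ℕ) : ℕ :=
  ((Icc 1 ⌊x⌋₊).filter (fun m => ∀ t ∈ T, (m + t).Prime)).card

/-- the number of integers `1 ≤ m ≤ x` for which all `m + t`, `t ∈ T`, are in `Q` -/
noncomputable def countIn (Q : Finset ℕ) (x : ℝ) (T : Finset ℕ) : ℕ :=
  ((Icc 1 ⌊x⌋₊).filter (fun m => ∀ t ∈ T, m + t ∈ Q)).card

/-- the number of residue classes modulo `p` that meet `T` -/
def nu (T : Finset ℕ) (p : ℕ) : ℕ := (T.image (· % p)).card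

/-- the factor at `p` of the singular series of `T` -/
noncomputable def loc (T : Finset ℕ) (p : ℕ) : ℝ :=
  (1 - (nu T p : ℝ) / p) / (1 - 1 / (p : ℝ)) ^ T.card

/-- the singular series of `T` -/
noncomputable def 𝔖 (T : Finset ℕ) : ℝ := ∏' p : Nat.Primes, loc T p

/-- the prediction `𝔖 T x / (log x) ^ n`, `n` the number of elements of `T` -/
noncomputable def pred (x : ℝ) (T : Finset ℕ) : ℝ := 𝔖 T * (x / Real.log x ^ T.card)

/-- the weight of a family of sets -/
noncomputable def weight (F : Finset (Finset ℕ)) : ℝ := ∑ T ∈ F, 𝔖 T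

open Classical in
/-- the sets of `F` for which `n T` is between `c` and `C` times the prediction -/
noncomputable def regular (x c C : ℝ) (n : Finset ℕ → ℕ) (F : Finset (Finset ℕ)) : Finset (Finset ℕ) :=
  F.filter (fun T => c * pred x T ≤ (n T : ℝ) ∧ (n T : ℝ) ≤ C * pred x T)

/-- the sets `{0} ∪ D`, `D` a `k`-element subset of `[2, H]` -/
noncomputable def anchored (k H : ℕ) : Finset (Finset ℕ) := ((Icc 2 H).powersetCard k).image (insert 0)

/-- the lower constant of the averages over the anchored sets -/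
noncomputable def low (k : ℕ) : ℝ := (4 / (1 + 3 * ((k : ℝ) + 1) ^ ((k : ℝ)⁻¹))) ^ k

open Pool.Agent.L0h43.TA Pool.Agent.L0h43.TB Pool.Agent.L0h43.TC

theorem low_eq (k : ℕ) : low k = lam 4 k := by
  unfold low lam tt
  norm_num

theorem low_one : low 1 = 4 / 7 := by
  unfold low
  norm_num

theorem anchored_inj (k H : ℕ) : Set.InjOn (insert 0 : Finset ℕ → Finset ℕ) ((Icc 2 H).powersetCard k : Set (Finset ℕ)) := by
  intro D hD E hE h
  rw [mem_coe, mem_powersetCard] at hD hE
  have h0 : ∀ F : Finset ℕ, F ⊆ Icc 2 H → (insert 0 F).erase 0 = F := by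
    intro F hF
    apply erase_insert
    intro h1
    have := mem_Icc.1 (hF h1)
    omega
  rw [← h0 D hD.1, ← h0 E hE.1, h]

theorem card_anchored {k H : ℕ} {D : Finset ℕ} (hD : D ∈ (Icc 2 H).powersetCard k) : (insert 0 D).card = k + 1 := by
  rw [mem_powersetCard] at hD
  rw [card_insert_of_notMem, hD.2]
  intro h
  have := mem_Icc.1 (hD.1 h)
  omega

theorem weight_anchored (k H : ℕ) :
    weight (anchored k H) = ∑ D ∈ (Icc 2 H).powersetCard k, Pool.Agent.H387R2.Uni.CT (insert 0 D) := by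
  unfold weight anchored
  rw [sum_image (anchored_inj k H)]
  rfl

theorem weight_regular_anchored (k H : ℕ) (x c C : ℝ) :
    weight (regular x c C (count x) (anchored k H)) = ∑ D ∈ ((Icc 2 H).powersetCard k).filter (fun D =>
      c * Pool.Agent.H387R2.Uni.CT (insert 0 D) * (x / Real.log x ^ (k + 1)) ≤ (cnt x (insert 0 D) : ℝ) ∧
      (cnt x (insert 0 D) : ℝ) ≤ C * Pool.Agent.H387R2.Uni.CT (insert 0 D) * (x / Real.log x ^ (k + 1))),
      Pool.Agent.H387R2.Uni.CT (insert 0 D) := by
  classical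
  unfold weight regular anchored
  rw [filter_image, sum_image]
  · apply sum_congr _ fun D _ => rfl
    apply filter_congr
    intro D hD
    unfold pred
    rw [card_anchored hD, ← mul_assoc, ← mul_assoc]
    rfl
  · intro D hD E hE h
    rw [mem_coe, mem_filter] at hD hE
    exact anchored_inj k H hD.1 hE.1 h

theorem weight_regular (k : ℕ) (x c C : ℝ) (n : Finset ℕ → ℕ) (S : Finset ℕ) :
    weight (regular x c C n (S.powersetCard (k + 1))) = ∑ T ∈ (S.powersetCard (k + 1)).filter (fun T =>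
      c * Pool.Agent.H387R2.Uni.CT T * (x / Real.log x ^ (k + 1)) ≤ (n T : ℝ) ∧
      (n T : ℝ) ≤ C * Pool.Agent.H387R2.Uni.CT T * (x / Real.log x ^ (k + 1))),
      Pool.Agent.H387R2.Uni.CT T := by
  classical
  unfold weight regular
  apply sum_congr _ fun D _ => rfl
  apply filter_congr
  intro T hT
  unfold pred
  rw [(mem_powersetCard.1 hT).2, ← mul_assoc, ← mul_assoc]
  rfl

open Classical in
/-- For every finite `T` the product `𝔖 T` converges. Let `k ≥ 1`, `0 ≤ c < 1`, `ε > 0`.

(1) For all large real `x` the sets `{0} ∪ D`, `D ⊂ [2, (log x) ^ (k + 1)]` of `k` elements, whose count is between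
`c` and `4 ^ k + ε` times the prediction carry at least the proportion `(low k - c) / (4 ^ k - c) - ε` of the weight
of all.

(2) The same for `D ⊂ [2, H]` at all scales `K log x ≤ H ≤ (log x) ^ A`.

(3) For every `ρ > 0` there is `K` such that for every `A`, all large `x`, all intervals `[z, z + H)` with
`K log x ≤ H`, `z + H ≤ (log x) ^ A`, and ALL `S ⊆ [z, z + H)` with at least `ρ H` elements: the sum of the counts of
the `(k + 1)`-element subsets of `S` is between `1 - ε` and `4 ^ k + ε` times the sum of the predictions, and those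
with a count between `c` and `4 ^ k + ε` times the prediction carry at least the proportion
`(1 - c) / (4 ^ k - c) - ε` of the weight of all.

(4) For every `0 < δ ≤ 1` there is `K` such that for every `A`, all large `x`, all `H` with
`K log x ≤ H ≤ (log x) ^ A` and ALL sets `Q` of at least `δ x / log x` primes `≤ x`: the `(k + 1)`-element
`T ⊂ [0, H)` for which the number of `m ≤ x` with `m + T ⊆ Q` is between `c` and `4 ^ k + ε` times the prediction
carry at least the proportion `(δ ^ (k + 1) - c) / (4 ^ k - c) - ε` of the weight of all. -/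
theorem result :
    (∀ T : Finset ℕ, HasProd (fun p : Nat.Primes => loc T p) (𝔖 T)) ∧ low 1 = 4 / 7 ∧
    ∀ (k : ℕ) (c ε : ℝ), 1 ≤ k → 0 ≤ c → c < 1 → 0 < ε →
      -- (1)
      (∃ x₀ : ℝ, ∀ x : ℝ, x₀ ≤ x →
        ((low k - c) / (4 ^ k - c) - ε) * weight (anchored k ⌊Real.log x ^ (k + 1)⌋₊) ≤
          weight (regular x c (4 ^ k + ε) (count x) (anchored k ⌊Real.log x ^ (k + 1)⌋₊))) ∧
      -- (2)
      (∃ K : ℝ, ∀ A : ℝ, 0 ≤ A → ∃ x₀ : ℝ, ∀ x : ℝ, x₀ ≤ x → ∀ H : ℕ, K * Real.log x ≤ H →
        (H : ℝ) ≤ Real.log x ^ A →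
        ((low k - c) / (4 ^ k - c) - ε) * weight (anchored k H) ≤
          weight (regular x c (4 ^ k + ε) (count x) (anchored k H))) ∧
      -- (3)
      (∀ ρ : ℝ, 0 < ρ → ∃ K : ℝ, ∀ A : ℝ, 0 ≤ A → ∃ x₀ : ℝ, ∀ x : ℝ, x₀ ≤ x → ∀ z H : ℕ, K * Real.log x ≤ H →
        ((z + H : ℕ) : ℝ) ≤ Real.log x ^ A → ∀ S ⊆ Ico z (z + H), ρ * H ≤ (S.card : ℝ) →
        (1 - ε) * ∑ T ∈ S.powersetCard (k + 1), pred x T ≤ ∑ T ∈ S.powersetCard (k + 1), (count x T : ℝ) ∧
        ∑ T ∈ S.powersetCard (k + 1), (count x T : ℝ) ≤ (4 ^ k + ε) * ∑ T ∈ S.powersetCard (k + 1), pred x T ∧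
        ((1 - c) / (4 ^ k - c) - ε) * weight (S.powersetCard (k + 1)) ≤
          weight (regular x c (4 ^ k + ε) (count x) (S.powersetCard (k + 1)))) ∧
      -- (4)
      (∀ δ : ℝ, 0 < δ → δ ≤ 1 → ∃ K : ℝ, ∀ A : ℝ, 0 ≤ A → ∃ x₀ : ℝ, ∀ x : ℝ, x₀ ≤ x → ∀ H : ℕ,
        K * Real.log x ≤ H → (H : ℝ) ≤ Real.log x ^ A → ∀ Q : Finset ℕ, (∀ q ∈ Q, q.Prime ∧ (q : ℝ) ≤ x) →
        δ * (x / Real.log x) ≤ Q.card →
        ((δ ^ (k + 1) - c) / (4 ^ k - c) - ε) * weight ((range H).powersetCard (k + 1)) ≤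
          weight (regular x c (4 ^ k + ε) (countIn Q x) ((range H).powersetCard (k + 1)))) := by
  refine ⟨fun T => Pool.Agent.H387R2.Uni.CT_hasProd T, low_one, fun k c ε hk hc hc1 hε => ⟨?_, ?_, ?_, ?_⟩⟩
  · obtain ⟨x₀, h⟩ := eventually_atTop.1 (prob_prop k hk c ε hc hc1.le hε)
    refine ⟨x₀, fun x hx => ?_⟩
    rw [weight_anchored, weight_regular_anchored, low_eq]
    exact h x hx
  · obtain ⟨K, hK, h⟩ := anch_prop k hk c ε hc hc1.le hε
    refine ⟨K, fun A hA => ?_⟩
    obtain ⟨x₀, h⟩ := eventually_atTop.1 (h A hA)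
    refine ⟨x₀, fun x hx H h1 h2 => ?_⟩
    rw [weight_anchored, weight_regular_anchored, low_eq]
    exact h x hx H h1 h2
  · intro ρ hρ
    obtain ⟨K, hK, h⟩ := dense_prop k hk c ρ ε hc hc1.le hρ hε
    refine ⟨K, fun A hA => ?_⟩
    obtain ⟨x₀, h⟩ := eventually_atTop.1 (h A hA)
    refine ⟨x₀, fun x hx z H h1 h2 S hS hc => ?_⟩
    obtain ⟨g1, g2, g3⟩ := h x hx z H h1 h2 S hS hc
    have hpred : ∑ T ∈ S.powersetCard (k + 1), pred x T =
        (∑ T ∈ S.powersetCard (k + 1), Pool.Agent.H387R2.Uni.CT T) * (x / Real.log x ^ (k + 1)) := by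
      rw [sum_mul]
      apply sum_congr rfl
      intro T hT
      unfold pred
      rw [(mem_powersetCard.1 hT).2]
      rfl
    rw [hpred, ← mul_assoc, ← mul_assoc, weight_regular]
    exact ⟨g1, g2, g3⟩
  · intro δ hδ hδ1
    obtain ⟨K, hK, h⟩ := rel_prop k hk c δ ε hc hc1.le hδ hδ1 hε
    refine ⟨K, fun A hA => ?_⟩
    obtain ⟨x₀, h⟩ := eventually_atTop.1 (h A hA)
    refine ⟨x₀, fun x hx H h1 h2 Q hQ hc => ?_⟩
    rw [weight_regular]
    have g := h x hx H h1 h2 Q hQ hc
    have e : ∀ T : Finset ℕ, countIn Q x T = cntQ Q x T := by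
      intro T
      unfold countIn cntQ
      congr
    simp only [e]
    exact g

end Pool.Agent.Results.MP_485179_nt.ExplicitProportions
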